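import Pool.Agent.W170.Z3.Stm
import Pool.Agent.H337R2.Cx4
import Pool.Agent.H337R2.Stir

/-!
# Irrationality exponent of `ζ(3)`: `R` on the line `Re t = -(n + 1/2)`

`G1r`: comparison of `R` on the line with the product over all half integers.
`G1z`: the size of `R` at the real point of the line.
-/

open Polynomial Pool.Agent.H337R2 Filter Topology

namespace Pool.Agent.W692.Z3

open Pool.Agent.W170.Z3

noncomputable section

/-- the weights -/
def w (y : ℝ) (m : ℕ) : ℝ := 1 + y ^ 2 / ((m : ℝ) - 1 / 2) ^ 2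

lemma w_pos (y : ℝ) (m : ℕ) : 0 < w y m := by unfold w; positivity

lemma norm_w (y : ℝ) (m : ℕ) : ‖zl y + m‖ ^ 2 = ‖zl 0 + m‖ ^ 2 * w y m := by
  have hm := half_ne m
  rw [zl_add, zl_add, norm_lf, norm_lf, Real.sq_sqrt (by positivity), Real.sq_sqrt (by positivity)]
  unfold w
  have h2 : ((m : ℝ) - 1 / 2) ^ 2 ≠ 0 := pow_ne_zero 2 hm
  rw [zero_pow two_ne_zero, add_zero, mul_add, mul_one, mul_div_cancel₀ _ h2]

/-- the products of the distances -/
def GG (y : ℝ) (a b : ℕ) : ℝ := ∏ m ∈ Finset.Ioc a b, ‖zl y + (m : ℂ)‖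

/-- the products of the weights -/
def WW (y : ℝ) (a b : ℕ) : ℝ := ∏ m ∈ Finset.Ioc a b, w y m

lemma GG_sq (y : ℝ) (a b : ℕ) : GG y a b ^ 2 = GG 0 a b ^ 2 * WW y a b := by
  unfold GG WW
  rw [← Finset.prod_pow, ← Finset.prod_pow, ← Finset.prod_mul_distrib]
  exact Finset.prod_congr rfl fun m _ => norm_w y m

lemma GG_pos (y : ℝ) (a b : ℕ) : 0 < GG y a b :=
  Finset.prod_pos fun m _ => norm_pos_iff.2 (zl_ne y m)

lemma WW_pos (y : ℝ) (a b : ℕ) : 0 < WW y a b := Finset.prod_pos fun m _ => w_pos y m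

lemma GG_cons (y : ℝ) {a b c : ℕ} (h1 : a ≤ b) (h2 : b ≤ c) : GG y a b * GG y b c = GG y a c :=
  Finset.prod_Ioc_consecutive _ h1 h2

lemma WW_cons (y : ℝ) {a b c : ℕ} (h1 : a ≤ b) (h2 : b ≤ c) : WW y a b * WW y b c = WW y a c :=
  Finset.prod_Ioc_consecutive _ h1 h2

lemma HM_w (y : ℝ) (M : ℕ) : HM y M = WW y 0 M := by
  unfold HM WW
  refine Finset.prod_nbij' (fun m => m + 1) (fun m => m - 1) ?_ ?_ ?_ ?_ ?_
  · intro m hm; rw [Finset.mem_range] at hm; rw [Finset.mem_Ioc]; omega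
  · intro m hm; rw [Finset.mem_Ioc] at hm; rw [Finset.mem_range]; omega
  · intro m hm; simp
  · intro m hm; rw [Finset.mem_Ioc] at hm; omega
  · intro m _
    unfold w
    push_cast
    have : ((m : ℝ) + 1 - 1 / 2) = m + 1 / 2 := by ring
    rw [this]

/-- factors to the right of the line -/
lemma zn_right (n : ℕ) (y : ℝ) (i : ℕ) : zn n y + ((n + i : ℕ) : ℂ) = zl y + (i : ℂ) := by
  unfold zn; push_cast; ring

/-- factors to the left of the line -/
lemma zn_left {n : ℕ} (y : ℝ) {m : ℕ} (h : m ≤ n) :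
    ‖zn n y + (m : ℂ)‖ = ‖zl y + ((n + 1 - m : ℕ) : ℂ)‖ := by
  obtain ⟨d, rfl⟩ : ∃ d, n = m + d := ⟨n - m, by omega⟩
  have e1 : zn (m + d) y + (m : ℂ) = ((-((d : ℝ) + 1 / 2) : ℝ) : ℂ) + y * Complex.I := by
    unfold zn zl; push_cast; ring
  have e2 : ((m + d + 1 - m : ℕ)) = d + 1 := by omega
  rw [e1, e2, zl_add, norm_lf, norm_lf]
  congr 1
  push_cast
  ring

lemma prod_left (n : ℕ) (y : ℝ) : ∏ m ∈ Finset.Icc 1 n, ‖zn n y + (m : ℂ)‖ = GG y 0 n := by
  unfold GG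
  refine Finset.prod_nbij' (fun m => n + 1 - m) (fun m => n + 1 - m) ?_ ?_ ?_ ?_ ?_
  · intro m hm; rw [Finset.mem_Icc] at hm; rw [Finset.mem_Ioc]; omega
  · intro m hm; rw [Finset.mem_Ioc] at hm; rw [Finset.mem_Icc]; omega
  · intro m hm; rw [Finset.mem_Icc] at hm; omega
  · intro m hm; rw [Finset.mem_Ioc] at hm; omega
  · intro m hm; rw [Finset.mem_Icc] at hm
    exact zn_left y hm.2

lemma prod_right (n a b : ℕ) (y : ℝ) :
    ∏ m ∈ Finset.Icc (n + a + 1) (n + b), ‖zn n y + (m : ℂ)‖ = GG y a b := by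
  unfold GG
  refine Finset.prod_nbij' (fun m => m - n) (fun m => n + m) ?_ ?_ ?_ ?_ ?_
  · intro m hm; rw [Finset.mem_Icc] at hm; rw [Finset.mem_Ioc]; omega
  · intro m hm; rw [Finset.mem_Ioc] at hm; rw [Finset.mem_Icc]; omega
  · intro m hm; rw [Finset.mem_Icc] at hm; omega
  · intro m hm; omega
  · intro m hm; rw [Finset.mem_Icc] at hm
    obtain ⟨i, rfl⟩ : ∃ i, m = n + i := ⟨m - n, by omega⟩
    rw [zn_right, Nat.add_sub_cancel_left]

lemma prod_both (n L : ℕ) (y : ℝ) :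
    ∏ m ∈ Finset.Icc 1 (n + L), ‖zn n y + (m : ℂ)‖ = GG y 0 n * GG y 0 L := by
  have h : Finset.Icc 1 (n + L) = Finset.Icc 1 n ∪ Finset.Icc (n + 0 + 1) (n + L) := by
    ext m; rw [Finset.mem_union, Finset.mem_Icc, Finset.mem_Icc, Finset.mem_Icc]; omega
  rw [h, Finset.prod_union, prod_left, prod_right n 0 L y]
  rw [Finset.disjoint_left]
  intro m h1 h2
  rw [Finset.mem_Icc] at h1 h2
  omega

/-- the constant -/
def cc (n : ℕ) : ℝ :=
  (((7 * n).factorial : ℕ) : ℝ) ^ 2 / ((((4 * n).factorial : ℕ) : ℝ) * (((6 * n).factorial : ℕ) : ℝ))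

lemma NG_eq (n : ℕ) (y : ℝ) : NG n y = cc n *
    ((GG y 0 n * GG y 0 (3 * n)) * (GG y 0 n * GG y 0 (5 * n))) / GG y (4 * n) (11 * n) ^ 2 := by
  unfold NG
  have e4 := prod_both n (3 * n) y
  have e6 := prod_both n (5 * n) y
  have e7 := prod_right n (4 * n) (11 * n) y
  rw [show n + 3 * n = 4 * n by ring] at e4
  rw [show n + 5 * n = 6 * n by ring] at e6
  rw [show n + 4 * n + 1 = 5 * n + 1 by ring, show n + 11 * n = 12 * n by ring] at e7
  rw [e4, e6, Finset.prod_pow, e7]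
  rfl

/-- comparison of `R` on the line with the product over all half integers -/
theorem G1r : StG1r := by
  intro n hn y M hM
  have hw : ∀ m : ℕ, 1 + y ^ 2 / ((m : ℝ) - 1 / 2) ^ 2 = w y m := fun m => rfl
  simp only [hw, Finset.prod_pow]
  change (NG n y * Real.exp (-(2 * Real.pi * |y|))) ^ 2 *
    (WW y n (3 * n) ^ 2 * WW y (3 * n) (4 * n) ^ 3 * WW y (4 * n) (5 * n) ^ 5 *
      WW y (5 * n) (11 * n) ^ 6 * WW y (11 * n) M ^ 4) ≤ NG n 0 ^ 2
  have hHM : HM y M = WW y 0 n * WW y n (3 * n) * WW y (3 * n) (4 * n) * WW y (4 * n) (5 * n) *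
      WW y (5 * n) (11 * n) * WW y (11 * n) M := by
    rw [HM_w, WW_cons y (by omega) (by omega), WW_cons y (by omega) (by omega),
      WW_cons y (by omega) (by omega), WW_cons y (by omega) (by omega),
      WW_cons y (by omega) (by omega)]
  have hsq : ∀ (x : ℝ), NG n x = cc n * (GG x 0 n ^ 4 * GG x n (3 * n) ^ 2 * GG x (3 * n) (4 * n)) /
      (GG x (4 * n) (5 * n) * GG x (5 * n) (11 * n) ^ 2) := by
    intro x
    rw [NG_eq, ← GG_cons x (show 0 ≤ n by omega) (show n ≤ 3 * n by omega),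
      ← GG_cons x (show 0 ≤ 4 * n by omega) (show 4 * n ≤ 5 * n by omega),
      ← GG_cons x (show 0 ≤ 3 * n by omega) (show 3 * n ≤ 4 * n by omega),
      ← GG_cons x (show 0 ≤ n by omega) (show n ≤ 3 * n by omega),
      ← GG_cons x (show 4 * n ≤ 5 * n by omega) (show 5 * n ≤ 11 * n by omega)]
    have h1 := GG_pos x (4 * n) (5 * n)
    have h2 := GG_pos x (5 * n) (11 * n)
    field_simp
  have hN : NG n y ^ 2 = NG n 0 ^ 2 * (WW y 0 n ^ 4 * WW y n (3 * n) ^ 2 * WW y (3 * n) (4 * n) /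
      (WW y (4 * n) (5 * n) * WW y (5 * n) (11 * n) ^ 2)) := by
    have s0 := GG_sq y 0 n
    have s1 := GG_sq y n (3 * n)
    have s2 := GG_sq y (3 * n) (4 * n)
    have s3 := GG_sq y (4 * n) (5 * n)
    have s4 := GG_sq y (5 * n) (11 * n)
    have p3 := GG_pos 0 (4 * n) (5 * n)
    have p4 := GG_pos 0 (5 * n) (11 * n)
    have q3 := WW_pos y (4 * n) (5 * n)
    have q4 := WW_pos y (5 * n) (11 * n)
    have e1 : (cc n * (GG y 0 n ^ 4 * GG y n (3 * n) ^ 2 * GG y (3 * n) (4 * n))) ^ 2 =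
        (cc n * (GG 0 0 n ^ 4 * GG 0 n (3 * n) ^ 2 * GG 0 (3 * n) (4 * n))) ^ 2 *
        (WW y 0 n ^ 4 * WW y n (3 * n) ^ 2 * WW y (3 * n) (4 * n)) := by
      calc (cc n * (GG y 0 n ^ 4 * GG y n (3 * n) ^ 2 * GG y (3 * n) (4 * n))) ^ 2
          = cc n ^ 2 * ((GG y 0 n ^ 2) ^ 4 * (GG y n (3 * n) ^ 2) ^ 2 * GG y (3 * n) (4 * n) ^ 2) := by
            ring
        _ = _ := by rw [s0, s1, s2]; ring
    have e2 : (GG y (4 * n) (5 * n) * GG y (5 * n) (11 * n) ^ 2) ^ 2 =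
        (GG 0 (4 * n) (5 * n) * GG 0 (5 * n) (11 * n) ^ 2) ^ 2 *
        (WW y (4 * n) (5 * n) * WW y (5 * n) (11 * n) ^ 2) := by
      calc (GG y (4 * n) (5 * n) * GG y (5 * n) (11 * n) ^ 2) ^ 2
          = GG y (4 * n) (5 * n) ^ 2 * (GG y (5 * n) (11 * n) ^ 2) ^ 2 := by ring
        _ = _ := by rw [s3, s4]; ring
    rw [hsq y, hsq 0, div_pow, div_pow, e1, e2, mul_div_mul_comm]
  set W0 := WW y 0 n with hW0
  set W1 := WW y n (3 * n) with hW1
  set W2 := WW y (3 * n) (4 * n) with hW2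
  set W3 := WW y (4 * n) (5 * n) with hW3
  set W4 := WW y (5 * n) (11 * n) with hW4
  set W5 := WW y (11 * n) M with hW5
  have p0 : 0 < W0 := WW_pos _ _ _
  have p1 : 0 < W1 := WW_pos _ _ _
  have p2 : 0 < W2 := WW_pos _ _ _
  have p3 : 0 < W3 := WW_pos _ _ _
  have p4 : 0 < W4 := WW_pos _ _ _
  have p5 : 0 < W5 := WW_pos _ _ _
  have hE : Real.exp (-(2 * Real.pi * |y|)) ^ 2 * (W0 * W1 * W2 * W3 * W4 * W5) ^ 4 ≤ 1 := by
    have h1 := HM_le y M
    rw [hHM] at h1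
    have h2 : 0 ≤ W0 * W1 * W2 * W3 * W4 * W5 := by positivity
    have h3 : (W0 * W1 * W2 * W3 * W4 * W5) ^ 4 ≤ Real.exp (Real.pi * |y|) ^ 4 :=
      pow_le_pow_left₀ h2 h1 4
    calc Real.exp (-(2 * Real.pi * |y|)) ^ 2 * (W0 * W1 * W2 * W3 * W4 * W5) ^ 4
        ≤ Real.exp (-(2 * Real.pi * |y|)) ^ 2 * Real.exp (Real.pi * |y|) ^ 4 :=
          mul_le_mul_of_nonneg_left h3 (by positivity)
      _ = 1 := by
          rw [← Real.exp_nat_mul, ← Real.exp_nat_mul, ← Real.exp_add]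
          have : ((2 : ℕ) : ℝ) * -(2 * Real.pi * |y|) + ((4 : ℕ) : ℝ) * (Real.pi * |y|) = 0 := by
            push_cast; ring
          rw [this, Real.exp_zero]
  rw [mul_pow, hN]
  calc NG n 0 ^ 2 * (W0 ^ 4 * W1 ^ 2 * W2 / (W3 * W4 ^ 2)) * Real.exp (-(2 * Real.pi * |y|)) ^ 2 *
        (W1 ^ 2 * W2 ^ 3 * W3 ^ 5 * W4 ^ 6 * W5 ^ 4)
      = NG n 0 ^ 2 *
        (Real.exp (-(2 * Real.pi * |y|)) ^ 2 * (W0 * W1 * W2 * W3 * W4 * W5) ^ 4) := by
        field_simp
    _ ≤ NG n 0 ^ 2 * 1 := mul_le_mul_of_nonneg_left hE (by positivity)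
    _ = _ := by ring

/-! ### The real point -/

lemma norm_zl_zero {m : ℕ} (hm : 1 ≤ m) : ‖zl 0 + (m : ℂ)‖ = (m : ℝ) - 1 / 2 := by
  have hm' : (1 : ℝ) ≤ m := by exact_mod_cast hm
  have h1 : zl 0 + (m : ℂ) = (((m : ℝ) - 1 / 2 : ℝ) : ℂ) := by
    unfold zl
    push_cast
    ring
  rw [h1, Complex.norm_real, Real.norm_eq_abs, abs_of_nonneg (by linarith)]

lemma GG0_le (L : ℕ) : GG 0 0 L ≤ (L.factorial : ℝ) := by
  induction L with
  | zero => simp [GG]
  | succ L ih =>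
    have h0 : GG 0 0 (L + 1) = GG 0 0 L * ((L : ℝ) + 1 - 1 / 2) := by
      unfold GG
      rw [Finset.prod_Ioc_succ_top (by omega), norm_zl_zero (by omega)]
      push_cast; ring
    rw [h0, Nat.factorial_succ]
    push_cast
    have h1 := GG_pos 0 0 L
    have h2 : (0 : ℝ) ≤ (L : ℝ) := by positivity
    have h3 : (0 : ℝ) ≤ (L.factorial : ℝ) := by positivity
    nlinarith

lemma fac_upper (N : ℕ) : (N.factorial : ℝ) ≤
    Real.exp 1 * (N + 1) * Real.exp (xl N) * Real.exp (-(N : ℝ)) := by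
  have h := fac_up N
  rw [Real.exp_neg, ← div_eq_mul_inv, le_div_iff₀ (Real.exp_pos _)]
  exact h

lemma fac_lower (N : ℕ) : Real.exp (xl N) * Real.exp (-(N : ℝ)) ≤ (N.factorial : ℝ) := by
  have h := fac_low 0 N
  simp only [Nat.factorial_zero, Nat.cast_one, one_mul, Nat.cast_zero, zero_add, xl_zero,
    Real.exp_zero, mul_one] at h
  rw [Real.exp_neg, ← div_eq_mul_inv, div_le_iff₀ (Real.exp_pos _)]
  exact h

/-- the size of `R` at the real point of the line -/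
theorem G1z : StG1z := by
  refine ⟨46464 * Real.exp 1 ^ 6, 6, by positivity, fun n hn => ?_⟩
  have hn1 : (1 : ℝ) ≤ n := by exact_mod_cast hn
  have hn0 : (0 : ℝ) < n := by linarith
  rw [NG_eq]
  have hQe : GG 0 (4 * n) (11 * n) = ∏ k ∈ Finset.Icc (4 * n + 1) (11 * n), ((k : ℝ) - 1 / 2) := by
    unfold GG
    have e : Finset.Ioc (4 * n) (11 * n) = Finset.Icc (4 * n + 1) (11 * n) := by
      ext m; rw [Finset.mem_Icc, Finset.mem_Ioc]; omega
    rw [e]
    exact Finset.prod_congr rfl fun m hm => by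
      rw [norm_zl_zero (by have := (Finset.mem_Icc.1 hm).1; omega)]
  have hQ0 : 0 < GG 0 (4 * n) (11 * n) := GG_pos _ _ _
  rw [hQe] at hQ0 ⊢
  set Q : ℝ := ∏ k ∈ Finset.Icc (4 * n + 1) (11 * n), ((k : ℝ) - 1 / 2) with hQ
  have hQlow : ∏ k ∈ Finset.Icc (4 * n) (11 * n), (k : ℝ) ≤ Q * (11 * n) := by
    have h3 : ∏ k ∈ Finset.Icc (4 * n) (11 * n), (k : ℝ) =
        (∏ k ∈ Finset.Icc (4 * n + 1) (11 * n), ((k : ℝ) - 1)) * (11 * n) := by
      have h4 : Finset.Icc (4 * n) (11 * n) = insert (11 * n) (Finset.Ico (4 * n) (11 * n)) := by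
        ext k; rw [Finset.mem_insert, Finset.mem_Icc, Finset.mem_Ico]; omega
      rw [h4, Finset.prod_insert (by rw [Finset.mem_Ico]; omega), mul_comm]
      push_cast
      congr 1
      apply Finset.prod_bij (fun k _ => k + 1)
      · intro k hk; rw [Finset.mem_Ico] at hk; rw [Finset.mem_Icc]; omega
      · intro a _ b _ h; omega
      · intro k hk; rw [Finset.mem_Icc] at hk
        exact ⟨k - 1, by rw [Finset.mem_Ico]; omega, by omega⟩
      · intro k _; push_cast; ring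
    rw [h3]
    apply mul_le_mul_of_nonneg_right _ (by positivity)
    apply Finset.prod_le_prod
    · intro m hm
      have : ((4 * n + 1 : ℕ) : ℝ) ≤ m := by exact_mod_cast (Finset.mem_Icc.1 hm).1
      push_cast at this
      linarith
    · intro m _
      linarith
  have hkey : ((7 * n).factorial : ℝ) / Q ≤
      22 * Real.exp 1 * n * Real.exp (xl (7 * n) + xl (4 * n) - xl (11 * n)) := by
    have h1 := L3 (4 * n) (7 * n) (by omega)
    rw [show 4 * n + 7 * n = 11 * n by ring] at h1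
    rw [Finset.prod_inv_distrib] at h1
    have hP0 : 0 < ∏ k ∈ Finset.Icc (4 * n) (11 * n), (k : ℝ) := by
      refine Finset.prod_pos fun m hm => ?_
      have : ((4 * n : ℕ) : ℝ) ≤ m := by exact_mod_cast (Finset.mem_Icc.1 hm).1
      push_cast at this
      linarith
    push_cast at h1
    rw [show 4 * (n : ℝ) + 7 * n = 11 * n by ring] at h1
    have h2 : ((7 * n).factorial : ℝ) / Q ≤
        (11 * n) * (((7 * n).factorial : ℝ) * (∏ k ∈ Finset.Icc (4 * n) (11 * n), (k : ℝ))⁻¹) := by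
      rw [div_le_iff₀ hQ0]
      have h5 : (1 : ℝ) ≤ Q * (11 * n) * (∏ k ∈ Finset.Icc (4 * n) (11 * n), (k : ℝ))⁻¹ := by
        rw [← div_eq_mul_inv, le_div_iff₀ hP0, one_mul]
        exact hQlow
      have h6 : (0 : ℝ) ≤ ((7 * n).factorial : ℝ) := by positivity
      calc ((7 * n).factorial : ℝ) = ((7 * n).factorial : ℝ) * 1 := (mul_one _).symm
        _ ≤ ((7 * n).factorial : ℝ) *
            (Q * (11 * n) * (∏ k ∈ Finset.Icc (4 * n) (11 * n), (k : ℝ))⁻¹) := by gcongr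
        _ = _ := by ring
    refine h2.trans ?_
    calc (11 * n : ℝ) * (((7 * n).factorial : ℝ) * (∏ k ∈ Finset.Icc (4 * n) (11 * n), (k : ℝ))⁻¹)
        ≤ (11 * n) * (Real.exp 1 * (7 * n + 1) / (4 * n) *
          Real.exp (xl (7 * n) + xl (4 * n) - xl (11 * n))) := by gcongr
      _ = (11 / 4 * Real.exp 1 * (7 * n + 1)) *
          Real.exp (xl (7 * n) + xl (4 * n) - xl (11 * n)) := by
          field_simp
      _ ≤ _ := by
          apply mul_le_mul_of_nonneg_right _ (Real.exp_pos _).le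
          have := Real.exp_pos 1
          nlinarith
  -- the factorials
  have hf1 := fac_upper n
  have hf3 := fac_upper (3 * n)
  have hf5 := fac_upper (5 * n)
  have hf4 := fac_lower (4 * n)
  have hf6 := fac_lower (6 * n)
  have hs : ∀ a : ℝ, 0 ≤ a → xl (a * n) = n * xl a + n * a * Real.log n := by
    intro a ha
    rw [mul_comm a]
    exact xl_scale hn0 ha
  push_cast at hf3 hf5 hf4 hf6
  have g1 := GG0_le n
  have g3 := GG0_le (3 * n)
  have g5 := GG0_le (5 * n)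
  have q1 := (GG_pos 0 0 n).le
  have q3 := (GG_pos 0 0 (3 * n)).le
  have q5 := (GG_pos 0 0 (5 * n)).le
  have hA : (GG 0 0 n * GG 0 0 (3 * n)) * (GG 0 0 n * GG 0 0 (5 * n)) ≤
      96 * Real.exp 1 ^ 4 * n ^ 4 *
        Real.exp (2 * xl n + xl (3 * n) + xl (5 * n) - 10 * n) := by
    have k1 : (n : ℝ) + 1 ≤ 2 * n := by linarith
    have k3 : 3 * (n : ℝ) + 1 ≤ 4 * n := by linarith
    have k5 : 5 * (n : ℝ) + 1 ≤ 6 * n := by linarith
    have m1 : GG 0 0 n ≤ Real.exp 1 * (2 * n) * Real.exp (xl n) * Real.exp (-(n : ℝ)) :=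
      g1.trans (hf1.trans (by gcongr))
    have m3 : GG 0 0 (3 * n) ≤ Real.exp 1 * (4 * n) * Real.exp (xl (3 * n)) * Real.exp (-(3 * n : ℝ)) :=
      g3.trans (hf3.trans (by gcongr))
    have m5 : GG 0 0 (5 * n) ≤ Real.exp 1 * (6 * n) * Real.exp (xl (5 * n)) * Real.exp (-(5 * n : ℝ)) :=
      g5.trans (hf5.trans (by gcongr))
    calc (GG 0 0 n * GG 0 0 (3 * n)) * (GG 0 0 n * GG 0 0 (5 * n))
        ≤ ((Real.exp 1 * (2 * n) * Real.exp (xl n) * Real.exp (-(n : ℝ))) *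
          (Real.exp 1 * (4 * n) * Real.exp (xl (3 * n)) * Real.exp (-(3 * n : ℝ)))) *
          ((Real.exp 1 * (2 * n) * Real.exp (xl n) * Real.exp (-(n : ℝ))) *
          (Real.exp 1 * (6 * n) * Real.exp (xl (5 * n)) * Real.exp (-(5 * n : ℝ)))) := by gcongr
      _ = 96 * Real.exp 1 ^ 4 * n ^ 4 * (Real.exp (xl n) * Real.exp (-(n : ℝ)) *
          (Real.exp (xl (3 * n)) * Real.exp (-(3 * n : ℝ))) *
          (Real.exp (xl n) * Real.exp (-(n : ℝ))) *
          (Real.exp (xl (5 * n)) * Real.exp (-(5 * n : ℝ)))) := by ring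
      _ = _ := by
          rw [← Real.exp_add, ← Real.exp_add, ← Real.exp_add, ← Real.exp_add, ← Real.exp_add,
            ← Real.exp_add]
          congr 2
          ring
  have hB : Real.exp (xl (4 * n) + xl (6 * n) - 10 * n) ≤
      ((4 * n).factorial : ℝ) * ((6 * n).factorial : ℝ) := by
    calc Real.exp (xl (4 * n) + xl (6 * n) - 10 * n)
        = (Real.exp (xl (4 * n)) * Real.exp (-(4 * n : ℝ))) *
          (Real.exp (xl (6 * n)) * Real.exp (-(6 * n : ℝ))) := by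
          rw [← Real.exp_add, ← Real.exp_add, ← Real.exp_add]
          congr 1
          ring
      _ ≤ _ := by gcongr
  have hfac : (0 : ℝ) < ((4 * n).factorial : ℝ) * ((6 * n).factorial : ℝ) := by positivity
  have h7 : (0 : ℝ) ≤ ((7 * n).factorial : ℝ) / Q := by positivity
  have hAB : ((GG 0 0 n * GG 0 0 (3 * n)) * (GG 0 0 n * GG 0 0 (5 * n))) /
      (((4 * n).factorial : ℝ) * ((6 * n).factorial : ℝ)) ≤
      96 * Real.exp 1 ^ 4 * n ^ 4 *
        Real.exp (2 * xl n + xl (3 * n) + xl (5 * n) - 10 * n) /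
        Real.exp (xl (4 * n) + xl (6 * n) - 10 * n) :=
    div_le_div₀ (by positivity) hA (Real.exp_pos _) hB
  have hexp : Real.exp (2 * xl n + xl (3 * n) + xl (5 * n) - 10 * n) /
      Real.exp (xl (4 * n) + xl (6 * n) - 10 * n) *
      Real.exp (xl (7 * n) + xl (4 * n) - xl (11 * n)) ^ 2 = Real.exp (n * PhiG) := by
    rw [← Real.exp_nat_mul, ← Real.exp_sub, ← Real.exp_add]
    congr 1
    rw [hs 7 (by norm_num), hs 3 (by norm_num), hs 5 (by norm_num), hs 4 (by norm_num),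
      hs 6 (by norm_num), hs 11 (by norm_num)]
    unfold xl PhiG
    push_cast
    ring
  calc cc n * (GG 0 0 n * GG 0 0 (3 * n) * (GG 0 0 n * GG 0 0 (5 * n))) / Q ^ 2
      = (((GG 0 0 n * GG 0 0 (3 * n)) * (GG 0 0 n * GG 0 0 (5 * n))) /
        (((4 * n).factorial : ℝ) * ((6 * n).factorial : ℝ))) * (((7 * n).factorial : ℝ) / Q) ^ 2 := by
        unfold cc
        field_simp
    _ ≤ (96 * Real.exp 1 ^ 4 * n ^ 4 *
        Real.exp (2 * xl n + xl (3 * n) + xl (5 * n) - 10 * n) /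
        Real.exp (xl (4 * n) + xl (6 * n) - 10 * n)) *
        (22 * Real.exp 1 * n * Real.exp (xl (7 * n) + xl (4 * n) - xl (11 * n))) ^ 2 := by
        refine mul_le_mul hAB (pow_le_pow_left₀ h7 hkey 2) (by positivity) (by positivity)
    _ = 46464 * Real.exp 1 ^ 6 * (n : ℝ) ^ 6 *
        (Real.exp (2 * xl n + xl (3 * n) + xl (5 * n) - 10 * n) /
        Real.exp (xl (4 * n) + xl (6 * n) - 10 * n) *
        Real.exp (xl (7 * n) + xl (4 * n) - xl (11 * n)) ^ 2) := by ring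
    _ = _ := by rw [hexp]

end

end Pool.Agent.W692.Z3
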